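import Mathlib

set_option autoImplicit false

namespace Pool.Agent.Results.MP_493890_gt.AllSubsetsOneEmbedded

open Filter Topology Set

/-- `A = f⁻¹(0)` for some continuous `f : X → [0,1]`. -/
def FunctionallyClosed {X : Type*} [TopologicalSpace X] (A : Set X) : Prop :=
  ∃ f : C(X, unitInterval), A = {x | f x = 0}

/-- `A = f⁻¹((0,1])` for some continuous `f : X → [0,1]`. -/
def FunctionallyOpen {X : Type*} [TopologicalSpace X] (A : Set X) : Prop :=
  ∃ f : C(X, unitInterval), A = {x | 0 < f x}

/-- Countable unions of functionally closed sets. -/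
def FunctionallyFSigma {X : Type*} [TopologicalSpace X] (A : Set X) : Prop :=
  ∃ F : ℕ → Set X, (∀ n, FunctionallyClosed (F n)) ∧ A = ⋃ n, F n

/-- Countable intersections of functionally open sets. -/
def FunctionallyGDelta {X : Type*} [TopologicalSpace X] (A : Set X) : Prop :=
  ∃ F : ℕ → Set X, (∀ n, FunctionallyOpen (F n)) ∧ A = ⋂ n, F n

/-- `E` is `1`-embedded in `X`: every functionally `F_σ` (resp. `G_δ`) subset of the subspace `E`
is the trace of a functionally `F_σ` (resp. `G_δ`) subset of `X`. -/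
def OneEmbedded {X : Type*} [TopologicalSpace X] (E : Set X) : Prop :=
  (∀ A : Set E, FunctionallyFSigma A → ∃ B : Set X, FunctionallyFSigma B ∧
    A = Subtype.val ⁻¹' B) ∧
  (∀ A : Set E, FunctionallyGDelta A → ∃ B : Set X, FunctionallyGDelta B ∧
    A = Subtype.val ⁻¹' B)

/-! ### General facts -/

lemma FunctionallyClosed.compl {X : Type*} [TopologicalSpace X] {A : Set X}
    (h : FunctionallyClosed A) : FunctionallyOpen Aᶜ := by
  obtain ⟨f, rfl⟩ := h
  refine ⟨f, ?_⟩
  ext x
  simp only [mem_compl_iff, mem_ofPred_eq]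
  exact unitInterval.pos_iff_ne_zero.symm

lemma FunctionallyFSigma.compl {X : Type*} [TopologicalSpace X] {A : Set X}
    (h : FunctionallyFSigma A) : FunctionallyGDelta Aᶜ := by
  obtain ⟨F, hF, rfl⟩ := h
  exact ⟨fun n => (F n)ᶜ, fun n => (hF n).compl, by rw [compl_iUnion]⟩

/-- A countable intersection of clopen sets is functionally closed. -/
lemma functionallyClosed_iInter {X : Type*} [TopologicalSpace X] (C : ℕ → Set X)
    (hC : ∀ n, IsClopen (C n)) : FunctionallyClosed (⋂ n, C n) := by
  classical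
  let g : ℕ → X → ℝ := fun n => (C n)ᶜ.indicator (fun _ => (1:ℝ))
  have hg : ∀ n, Continuous (g n) := fun n =>
    (hC n).compl.continuous_indicator continuous_const
  have hg0 : ∀ n x, 0 ≤ g n x := fun n x => indicator_nonneg (fun _ _ => zero_le_one) x
  have hg1 : ∀ n x, g n x ≤ 1 := fun n x =>
    (indicator_le_self' (fun _ _ => zero_le_one) x)
  have hsum : Summable (fun n : ℕ => (1/2 : ℝ) / 2 / 2^n) := summable_geometric_two' (1/2)
  have hsum' : ∑' n : ℕ, (1/2 : ℝ) / 2 / 2^n ≤ 1 := by
    rw [tsum_geometric_two']; norm_num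
  have hbound : ∀ n x, ‖(1/2 : ℝ) / 2 / 2^n * g n x‖ ≤ (1/2 : ℝ) / 2 / 2^n := by
    intro n x
    have h2 : (0:ℝ) < (1/2) / 2 / 2^n := by positivity
    rw [Real.norm_eq_abs, abs_of_nonneg (mul_nonneg h2.le (hg0 n x))]
    nlinarith [hg1 n x]
  have hsumx : ∀ x, Summable (fun n : ℕ => (1/2 : ℝ) / 2 / 2^n * g n x) := fun x =>
    Summable.of_norm_bounded hsum (fun n => hbound n x)
  have hnn : ∀ n x, 0 ≤ (1/2 : ℝ) / 2 / 2^n * g n x := fun n x =>
    mul_nonneg (by positivity) (hg0 n x)
  let G : X → ℝ := fun x => ∑' n : ℕ, (1/2 : ℝ) / 2 / 2^n * g n x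
  have hG : Continuous G :=
    continuous_tsum (fun n => continuous_const.mul (hg n)) hsum hbound
  have hG0 : ∀ x, 0 ≤ G x := fun x => tsum_nonneg (fun n => hnn n x)
  have hG1 : ∀ x, G x ≤ 1 := by
    intro x
    refine le_trans ((hsumx x).tsum_le_tsum (fun n => ?_) hsum) hsum'
    exact (le_abs_self _).trans (hbound n x)
  refine ⟨⟨fun x => ⟨G x, hG0 x, hG1 x⟩, hG.subtype_mk _⟩, ?_⟩
  ext x
  simp only [mem_iInter, ContinuousMap.coe_mk, mem_ofPred_eq]
  constructor
  · intro hx
    apply Subtype.ext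
    change G x = 0
    have : ∀ n : ℕ, (1/2 : ℝ) / 2 / 2^n * g n x = 0 := by
      intro n
      have : g n x = 0 := indicator_of_notMem (by simpa using hx n) _
      rw [this, mul_zero]
    simp only [G, this, tsum_zero]
  · intro hx n
    by_contra hn
    have h0 : G x = 0 := congrArg Subtype.val hx
    have h1 : g n x = 1 := indicator_of_mem hn _
    have h2 : (1/2 : ℝ) / 2 / 2^n * g n x ≤ G x := (hsumx x).le_tsum n (fun m _ => hnn m x)
    rw [h1, h0] at h2
    have h3 : (0:ℝ) < (1/2) / 2 / 2^n := by positivity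
    linarith

lemma functionallyClosed_of_isClopen {X : Type*} [TopologicalSpace X] {C : Set X}
    (hC : IsClopen C) : FunctionallyClosed C := by
  have := functionallyClosed_iInter (fun _ : ℕ => C) (fun _ => hC)
  rwa [iInter_const] at this

lemma functionallyFSigma_iUnion {X : Type*} [TopologicalSpace X] {A : ℕ → Set X}
    (h : ∀ n, FunctionallyFSigma (A n)) : FunctionallyFSigma (⋃ n, A n) := by
  choose F hF hA using h
  refine ⟨fun n => F n.unpair.1 n.unpair.2, fun n => hF _ _, ?_⟩
  ext x
  simp only [mem_iUnion]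
  constructor
  · rintro ⟨n, hn⟩
    rw [hA n, mem_iUnion] at hn
    obtain ⟨m, hm⟩ := hn
    exact ⟨Nat.pair n m, by simpa using hm⟩
  · rintro ⟨n, hn⟩
    refine ⟨n.unpair.1, ?_⟩
    rw [hA, mem_iUnion]
    exact ⟨_, hn⟩

lemma FunctionallyClosed.functionallyFSigma {X : Type*} [TopologicalSpace X] {A : Set X}
    (h : FunctionallyClosed A) : FunctionallyFSigma A :=
  ⟨fun _ => A, fun _ => h, by rw [iUnion_const]⟩

lemma FunctionallyFSigma.union {X : Type*} [TopologicalSpace X] {A B : Set X}
    (hA : FunctionallyFSigma A) (hB : FunctionallyFSigma B) : FunctionallyFSigma (A ∪ B) := by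
  have : A ∪ B = ⋃ n : ℕ, (if n = 0 then A else B) := by
    ext x
    simp only [mem_union, mem_iUnion]
    constructor
    · rintro (h | h)
      · exact ⟨0, by simpa using h⟩
      · exact ⟨1, by simpa using h⟩
    · rintro ⟨n, hn⟩
      split_ifs at hn
      · exact Or.inl hn
      · exact Or.inr hn
  rw [this]
  apply functionallyFSigma_iUnion
  intro n
  split_ifs
  · exact hA
  · exact hB

/-- If all subsets of `X` are functionally `F_σ` then all subsets of `X` are `1`-embedded. -/
lemma oneEmbedded_of_all {X : Type*} [TopologicalSpace X]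
    (h : ∀ A : Set X, FunctionallyFSigma A) (E : Set X) : OneEmbedded E := by
  constructor
  · intro A _
    exact ⟨Subtype.val '' A, h _, (preimage_image_eq A Subtype.val_injective).symm⟩
  · intro A _
    refine ⟨Subtype.val '' A, ?_, (preimage_image_eq A Subtype.val_injective).symm⟩
    have := (h (Subtype.val '' A)ᶜ).compl
    rwa [compl_compl] at this

/-! ### The space -/

/-- Coordinates. -/
inductive Coord : Type
  | s : Set ℝ → ℕ → Coord
  | t : Set (Finset (Set ℝ)) → ℕ → Coord

/-- Points. -/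
inductive Pt : Type
  | a : ℝ → Pt
  | b : ℕ → Finset (Set ℝ) → Pt
  | i : Set Coord → ℕ → Pt

/-- Values of coordinates at points. -/
def val : Coord → Pt → Prop
  | .s S _, .a x => x ∈ S
  | .t _ _, .a _ => False
  | .s S k, .b m z => S ∈ z ∧ k ≤ m ∧ ¬ S.Subsingleton
  | .t T m', .b m z => m = m' ∧ z ∈ T
  | φ, .i q _ => φ ∈ q

/-- Subsets of the levels of isolated points. -/
def valI (J : Set Pt) (n : ℕ) : Pt → Prop
  | .a _ => False
  | .b _ _ => False
  | .i q m => m = n ∧ Pt.i q m ∈ J

open Classical in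
/-- The evaluation map. -/
noncomputable def ev (p : Pt) : (Coord ⊕ (Set Pt × ℕ)) → Bool
  | .inl φ => decide (val φ p)
  | .inr J => decide (valI J.1 J.2 p)

/-- The topology induced by the evaluation map. -/
@[reducible] noncomputable def top : TopologicalSpace Pt := TopologicalSpace.induced ev inferInstance

lemma ev_injective : Function.Injective ev := by
  intro p p' h
  have h1 : ∀ φ, val φ p ↔ val φ p' := fun φ => by
    have := congrFun h (.inl φ)
    simpa [ev] using this
  have h2 : ∀ J n, valI J n p ↔ valI J n p' := fun J n => by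
    have := congrFun h (.inr (J, n))
    simpa [ev] using this
  match p, p' with
  | .a x, .a y =>
    have := (h1 (.s {x} 0)).mp (by simp [val])
    simp only [val, mem_singleton_iff] at this
    rw [this]
  | .a x, .b m z =>
    have := (h1 (.s {x} 0)).mp (by simp [val])
    simp [val] at this
  | .b m z, .a x =>
    have := (h1 (.s {x} 0)).mpr (by simp [val])
    simp [val] at this
  | .b m z, .b m' z' =>
    have := (h1 (.t {z} m)).mp (by simp [val])
    simp only [val, mem_singleton_iff] at this
    rw [this.1, this.2]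
  | .i q n, p' =>
    have := (h2 {Pt.i q n} n).mp (by simp [valI])
    match p' with
    | .a x => simp [valI] at this
    | .b m z => simp [valI] at this
    | .i q' n' =>
      simp only [valI, mem_singleton_iff] at this
      exact this.2.symm
  | p, .i q n =>
    have := (h2 {Pt.i q n} n).mpr (by simp [valI])
    match p with
    | .a x => simp [valI] at this
    | .b m z => simp [valI] at this
    | .i q' n' =>
      simp only [valI, mem_singleton_iff] at this
      exact this.2

attribute [local instance] top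

lemma isEmbedding_ev : IsEmbedding ev := ⟨⟨rfl⟩, ev_injective⟩

lemma continuous_ev : Continuous ev := isEmbedding_ev.continuous

instance : T35Space Pt := isEmbedding_ev.t35Space

lemma isClopen_val (φ : Coord) : IsClopen {p | val φ p} := by
  have : {p | val φ p} = (fun p => ev p (.inl φ)) ⁻¹' {true} := by
    ext p
    simp [ev]
  rw [this]
  exact (isClopen_discrete {true}).preimage
    ((continuous_apply (Sum.inl φ : Coord ⊕ (Set Pt × ℕ))).comp continuous_ev)

lemma isClopen_valI (J : Set Pt) (n : ℕ) : IsClopen {p | valI J n p} := by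
  have : {p | valI J n p} = (fun p => ev p (.inr (J, n))) ⁻¹' {true} := by
    ext p
    simp [ev]
  rw [this]
  exact (isClopen_discrete {true}).preimage
    ((continuous_apply (Sum.inr (J, n) : Coord ⊕ (Set Pt × ℕ))).comp continuous_ev)

/-- Basic neighbourhoods. -/
lemma exists_finset_of_mem {U : Set Pt} (hU : IsOpen U) {p : Pt} (hp : p ∈ U) :
    ∃ (F : Finset Coord) (N : ℕ), ∀ (q : Set Coord) (n : ℕ), N ≤ n →
      (∀ J m, ¬ valI J m p) → (∀ φ ∈ F, φ ∈ q ↔ val φ p) → Pt.i q n ∈ U := by
  classical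
  obtain ⟨V, hV, rfl⟩ := isOpen_induced_iff.mp hU
  obtain ⟨I, u, hu, hsub⟩ := isOpen_pi_iff.mp hV (ev p) hp
  refine ⟨I.toLeft, (I.toRight.sup (fun J => J.2)) + 1, ?_⟩
  intro q n hn hI hF
  apply hsub
  intro c hc
  have key : ev (Pt.i q n) c = ev p c := by
    match c with
    | .inl φ =>
      have : φ ∈ I.toLeft := by simpa using hc
      have h3 := hF φ this
      have h4 : val φ (Pt.i q n) ↔ φ ∈ q := by cases φ <;> exact Iff.rfl
      change decide (val φ (Pt.i q n)) = decide (val φ p)
      rw [decide_eq_decide, h4]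
      exact h3
    | .inr J =>
      have hJ : J ∈ I.toRight := by simpa using hc
      have hle : J.2 ≤ I.toRight.sup (fun J => J.2) := Finset.le_sup (f := fun J : Set Pt × ℕ => J.2) hJ
      have h1 := hI J.1 J.2
      change decide (valI J.1 J.2 (Pt.i q n)) = decide (valI J.1 J.2 p)
      rw [decide_eq_decide]
      constructor
      · rintro ⟨h2, _⟩
        omega
      · intro h2
        exact absurd h2 h1
  rw [key]
  exact (hu c hc).2

/-- Every subset is functionally `F_σ`. -/
lemma all_functionallyFSigma (D : Set Pt) : FunctionallyFSigma D := by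
  -- the complement of the first levels of isolated points
  have hcl : ∀ n, IsClopen {p | valI univ n p}ᶜ := fun n => (isClopen_valI univ n).compl
  have hD : D = ({p | ∃ x, p = Pt.a x ∧ p ∈ D} ∪ ⋃ m : ℕ, {p | ∃ z, p = Pt.b m z ∧ p ∈ D}) ∪
      ⋃ n : ℕ, {p | ∃ q, p = Pt.i q n ∧ p ∈ D} := by
    ext p
    simp only [mem_union, mem_iUnion, mem_ofPred_eq]
    constructor
    · intro hp
      match p with
      | .a x => exact Or.inl (Or.inl ⟨x, rfl, hp⟩)
      | .b m z => exact Or.inl (Or.inr ⟨m, z, rfl, hp⟩)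
      | .i q n => exact Or.inr ⟨n, q, rfl, hp⟩
    · rintro ((⟨x, _, hp⟩ | ⟨m, z, _, hp⟩) | ⟨n, q, _, hp⟩) <;> exact hp
  rw [hD]
  refine FunctionallyFSigma.union (FunctionallyFSigma.union ?_ ?_) ?_
  · apply FunctionallyClosed.functionallyFSigma
    have : {p | ∃ x, p = Pt.a x ∧ p ∈ D} =
        ⋂ n : ℕ, ({p | val (.s {x | Pt.a x ∈ D} n) p} ∩ {p | valI univ n p}ᶜ) := by
      ext p
      simp only [mem_iInter, mem_inter_iff, mem_compl_iff, mem_ofPred_eq]
      match p with
      | .a x => simp [val, valI]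
      | .b m z =>
        simp only [reduceCtorEq, false_and, exists_false, false_iff, not_forall]
        refine ⟨m + 1, ?_⟩
        simp [val]
      | .i q n =>
        simp only [reduceCtorEq, false_and, exists_false, false_iff, not_forall]
        refine ⟨n, ?_⟩
        simp [valI]
    rw [this]
    exact functionallyClosed_iInter _ (fun n => (isClopen_val _).inter (hcl n))
  · apply functionallyFSigma_iUnion
    intro m
    apply FunctionallyClosed.functionallyFSigma
    have : {p | ∃ z, p = Pt.b m z ∧ p ∈ D} =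
        ⋂ n : ℕ, ({p | val (.t {z | Pt.b m z ∈ D} m) p} ∩ {p | valI univ n p}ᶜ) := by
      ext p
      simp only [mem_iInter, mem_inter_iff, mem_compl_iff, mem_ofPred_eq]
      match p with
      | .a x => simp [val, valI]
      | .b m' z =>
        simp only [val, valI, Pt.b.injEq, mem_ofPred_eq]
        constructor
        · rintro ⟨z', ⟨rfl, rfl⟩, h⟩ n
          exact ⟨⟨rfl, h⟩, fun h => h⟩
        · intro h
          obtain ⟨⟨rfl, h2⟩, -⟩ := h 0
          exact ⟨z, ⟨rfl, rfl⟩, h2⟩
      | .i q n =>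
        simp only [reduceCtorEq, false_and, exists_false, false_iff, not_forall]
        refine ⟨n, ?_⟩
        simp [valI]
    rw [this]
    exact functionallyClosed_iInter _ (fun n => (isClopen_val _).inter (hcl n))
  · apply functionallyFSigma_iUnion
    intro n
    apply FunctionallyClosed.functionallyFSigma
    apply functionallyClosed_of_isClopen
    have : {p | ∃ q, p = Pt.i q n ∧ p ∈ D} = {p | valI D n p} := by
      ext p
      simp only [mem_ofPred_eq]
      match p with
      | .a x => simp [valI]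
      | .b m z => simp [valI]
      | .i q m =>
        simp only [valI, Pt.i.injEq]
        constructor
        · rintro ⟨q', ⟨_, rfl⟩, h⟩
          exact ⟨rfl, h⟩
        · rintro ⟨rfl, h⟩
          exact ⟨q, ⟨rfl, rfl⟩, h⟩
    rw [this]
    exact isClopen_valI D n

lemma isClosed_a : IsClosed (range Pt.a) := by
  have : range Pt.a = ⋂ n : ℕ, ({p | val (.s univ n) p} ∩ {p | valI univ n p}ᶜ) := by
    ext p
    simp only [mem_iInter, mem_inter_iff, mem_compl_iff, mem_ofPred_eq, mem_range]
    match p with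
    | .a x => simp [val, valI]
    | .b m z =>
      simp only [reduceCtorEq, exists_false, false_iff, not_forall]
      refine ⟨m + 1, ?_⟩
      simp [val]
    | .i q n =>
      simp only [reduceCtorEq, exists_false, false_iff, not_forall]
      refine ⟨n, ?_⟩
      simp [valI]
  rw [this]
  exact isClosed_iInter (fun n => ((isClopen_val _).inter (isClopen_valI univ n).compl).isClosed)

lemma isClosed_b : IsClosed {p : Pt | ∃ m z, p = Pt.b m z} := by
  have : {p : Pt | ∃ m z, p = Pt.b m z}ᶜ =
      (⋃ x : ℝ, {p | val (.s {x} 0) p}) ∩ (⋂ n : ℕ, {p | valI univ n p}ᶜ) ∪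
        ⋃ n : ℕ, {p | valI univ n p} := by
    ext p
    simp only [mem_union, mem_iUnion, mem_iInter, mem_inter_iff, mem_compl_iff, mem_ofPred_eq]
    match p with
    | .a x => simp [val, valI]
    | .b m z => simp [val, valI]
    | .i q n => simp [valI]
  have h2 : {p : Pt | ∃ m z, p = Pt.b m z}ᶜ =
      (⋃ x : ℝ, {p | val (.s {x} 0) p}) ∪ ⋃ n : ℕ, {p | valI univ n p} := by
    ext p
    simp only [mem_union, mem_iUnion, mem_compl_iff, mem_ofPred_eq]
    match p with
    | .a x => simp [val, valI]
    | .b m z => simp [val, valI]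
    | .i q n => simp [valI]
  rw [← isOpen_compl_iff, h2]
  exact (isOpen_iUnion fun x => (isClopen_val _).isOpen).union
    (isOpen_iUnion fun n => (isClopen_valI _ _).isOpen)

/-- The combinatorial core. -/
lemma exists_pair (F : ℝ → Finset Coord) (F' : ℕ → Finset (Set ℝ) → Finset Coord) :
    ∃ x m z, ∀ φ ∈ F x, φ ∈ F' m z → (val φ (Pt.a x) ↔ val φ (Pt.b m z)) := by
  classical
  -- step a
  obtain ⟨N, hN⟩ : ∃ N : ℕ, {x : ℝ | (F x).card ≤ N}.Infinite := by
    by_contra hcon
    push Not at hcon
    have hcount : (⋃ N : ℕ, {x : ℝ | (F x).card ≤ N}).Countable :=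
      countable_iUnion fun N => (hcon N).countable
    have huniv : (⋃ N : ℕ, {x : ℝ | (F x).card ≤ N}) = univ := by
      ext x
      simp only [mem_iUnion, mem_ofPred_eq, mem_univ, iff_true]
      exact ⟨_, le_rfl⟩
    rw [huniv] at hcount
    exact Cardinal.not_countable_real hcount
  -- step b
  obtain ⟨R, hRinf, hRmax⟩ : ∃ R : Finset Coord, {x : ℝ | (F x).card ≤ N ∧ R ⊆ F x}.Infinite ∧
      ∀ φ, φ ∉ R → {x : ℝ | (F x).card ≤ N ∧ R ⊆ F x ∧ φ ∈ F x}.Finite := by
    by_contra hcon
    push Not at hcon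
    have hstep : ∀ k : ℕ, ∃ R : Finset Coord, R.card = k ∧
        {x : ℝ | (F x).card ≤ N ∧ R ⊆ F x}.Infinite := by
      intro k
      induction k with
      | zero => exact ⟨∅, rfl, by simpa using hN⟩
      | succ k ih =>
        obtain ⟨R, hRk, hRinf⟩ := ih
        obtain ⟨φ, hφR, hφ⟩ := hcon R hRinf
        refine ⟨insert φ R, by rw [Finset.card_insert_of_notMem hφR, hRk], ?_⟩
        apply hφ.mono
        intro x hx
        obtain ⟨h1, h2, h3⟩ := hx
        exact ⟨h1, Finset.insert_subset h3 h2⟩
    obtain ⟨R, hRk, hRinf⟩ := hstep (N + 1)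
    obtain ⟨x, hx1, hx2⟩ := hRinf.nonempty
    have := Finset.card_le_card hx2
    omega
  -- step c
  obtain ⟨R', hR'⟩ : ∃ R' : Finset Coord,
      {x : ℝ | ((F x).card ≤ N ∧ R ⊆ F x) ∧ R.filter (fun φ => val φ (Pt.a x)) = R'}.Infinite := by
    by_contra hcon
    push Not at hcon
    apply hRinf
    have : {x : ℝ | (F x).card ≤ N ∧ R ⊆ F x} ⊆ ⋃ R' ∈ (R.powerset : Set (Finset Coord)),
        {x : ℝ | ((F x).card ≤ N ∧ R ⊆ F x) ∧ R.filter (fun φ => val φ (Pt.a x)) = R'} := by
      intro x hx
      simp only [mem_iUnion, mem_ofPred_eq]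
      exact ⟨R.filter (fun φ => val φ (Pt.a x)),
        Finset.mem_coe.mpr (Finset.mem_powerset.mpr (Finset.filter_subset _ _)), hx, rfl⟩
    apply Set.Finite.subset _ this
    apply Set.Finite.biUnion (R.powerset.finite_toSet)
    intro R' _
    exact hcon R'
  -- step d
  let m : ℕ := R.sup (fun φ => match φ with | .s _ k => k | .t _ k => k) + 1
  have hms : ∀ S k, Coord.s S k ∈ R → k < m := by
    intro S k h
    have := Finset.le_sup (f := fun φ : Coord => match φ with | .s _ k => k | .t _ k => k) h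
    exact Nat.lt_succ_of_le this
  have hmt : ∀ T k, Coord.t T k ∈ R → k < m := by
    intro T k h
    have := Finset.le_sup (f := fun φ : Coord => match φ with | .s _ k => k | .t _ k => k) h
    exact Nat.lt_succ_of_le this
  let z : Finset (Set ℝ) := R'.image (fun φ => match φ with | .s S _ => S | .t _ _ => univ)
  -- step e
  obtain ⟨x, hx, hxF⟩ : ∃ x, (((F x).card ≤ N ∧ R ⊆ F x) ∧
      R.filter (fun φ => val φ (Pt.a x)) = R') ∧ ∀ φ ∈ F' m z, φ ∉ R → φ ∉ F x := by
    by_contra hcon
    push Not at hcon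
    apply hR'
    have : {x : ℝ | ((F x).card ≤ N ∧ R ⊆ F x) ∧ R.filter (fun φ => val φ (Pt.a x)) = R'} ⊆
        ⋃ φ ∈ ((F' m z).filter (fun φ => φ ∉ R) : Set Coord),
          {x : ℝ | (F x).card ≤ N ∧ R ⊆ F x ∧ φ ∈ F x} := by
      intro x hx
      obtain ⟨φ, h1, h2, h3⟩ := hcon x hx
      simp only [mem_iUnion, mem_ofPred_eq]
      exact ⟨φ, by simpa using ⟨h1, h2⟩, hx.1.1, hx.1.2, h3⟩
    apply Set.Finite.subset _ this
    apply Set.Finite.biUnion (Finset.finite_toSet _)
    intro φ hφ
    have : φ ∉ R := by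
      have := hφ
      simp only [Finset.coe_filter, mem_ofPred_eq] at this
      exact this.2
    exact hRmax φ this
  refine ⟨x, m, z, ?_⟩
  intro φ hφ hφ'
  have hφR : φ ∈ R := by
    by_contra hcon
    exact hxF φ hφ' hcon hφ
  have hval : ∀ ψ ∈ R, ∀ y : ℝ, R.filter (fun φ => val φ (Pt.a y)) = R' →
      (val ψ (Pt.a y) ↔ ψ ∈ R') := by
    intro ψ hψ y hy
    rw [← hy, Finset.mem_filter]
    exact ⟨fun h => ⟨hψ, h⟩, fun h => h.2⟩
  match φ with
  | .t T k =>
    have := hmt T k hφR
    simp only [val, false_iff]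
    rintro ⟨h1, _⟩
    omega
  | .s S k =>
    rw [hval _ hφR x hx.2]
    have hk := hms S k hφR
    simp only [val]
    constructor
    · intro h
      refine ⟨?_, hk.le, ?_⟩
      · exact Finset.mem_image.mpr ⟨_, h, rfl⟩
      · intro hsub
        apply hR'
        apply Set.Finite.subset hsub.finite
        intro y hy
        have := (hval _ hφR y hy.2).mpr h
        exact this
    · rintro ⟨h1, -, -⟩
      obtain ⟨ψ, hψ, hψS⟩ := Finset.mem_image.mp h1
      have hψR : ψ ∈ R := by
        rw [← hx.2] at hψ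
        exact (Finset.mem_filter.mp hψ).1
      have hψx := (hval ψ hψR x hx.2).mpr hψ
      match ψ with
      | .t T k' =>
        simp [val] at hψx
      | .s S' k' =>
        simp only at hψS
        subst hψS
        exact (hval _ hφR x hx.2).mp hψx

lemma not_normal : ¬ NormalSpace Pt := by
  classical
  intro hn
  have hdisj : Disjoint (range Pt.a) {p : Pt | ∃ m z, p = Pt.b m z} := by
    rw [Set.disjoint_left]
    rintro _ ⟨x, rfl⟩ ⟨m, z, h⟩
    cases h
  obtain ⟨U, V, hU, hV, hAU, hBV, hUV⟩ := normal_separation isClosed_a isClosed_b hdisj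
  have h1 : ∀ x : ℝ, ∃ (F : Finset Coord) (N : ℕ), ∀ (q : Set Coord) (n : ℕ), N ≤ n →
      (∀ J m, ¬ valI J m (Pt.a x)) → (∀ φ ∈ F, φ ∈ q ↔ val φ (Pt.a x)) → Pt.i q n ∈ U := fun x =>
    exists_finset_of_mem hU (hAU (mem_range_self x))
  have h2 : ∀ (m : ℕ) (z : Finset (Set ℝ)), ∃ (F : Finset Coord) (N : ℕ),
      ∀ (q : Set Coord) (n : ℕ), N ≤ n →
      (∀ J m', ¬ valI J m' (Pt.b m z)) → (∀ φ ∈ F, φ ∈ q ↔ val φ (Pt.b m z)) → Pt.i q n ∈ V :=
    fun m z => exists_finset_of_mem hV (hBV ⟨m, z, rfl⟩)
  choose F N hF using h1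
  choose F' N' hF' using h2
  obtain ⟨x, m, z, hxy⟩ := exists_pair F F'
  let q : Set Coord := {φ | (φ ∈ F x ∧ val φ (Pt.a x)) ∨ (φ ∈ F' m z ∧ val φ (Pt.b m z))}
  let n : ℕ := max (N x) (N' m z)
  have hqU : Pt.i q n ∈ U := by
    apply hF x q n (le_max_left _ _)
    · intro J m'
      simp [valI]
    · intro φ hφ
      constructor
      · rintro (⟨_, h⟩ | ⟨h3, h⟩)
        · exact h
        · exact (hxy φ hφ h3).mpr h
      · intro h
        exact Or.inl ⟨hφ, h⟩
  have hqV : Pt.i q n ∈ V := by
    apply hF' m z q n (le_max_right _ _)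
    · intro J m'
      simp [valI]
    · intro φ hφ
      constructor
      · rintro (⟨h3, h⟩ | ⟨_, h⟩)
        · exact (hxy φ h3 hφ).mp h
        · exact h
      · intro h
        exact Or.inr ⟨hφ, h⟩
  exact Set.disjoint_left.mp hUV hqU hqV

/-- **Theorem.** There is a completely regular Hausdorff space which is not normal (so not
perfectly normal) and all of whose subsets are `1`-embedded. -/
theorem result : ∃ (X : Type) (_ : TopologicalSpace X), T35Space X ∧ ¬ NormalSpace X ∧
    ¬ PerfectlyNormalSpace X ∧ ∀ E : Set X, OneEmbedded E :=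
  ⟨Pt, top, inferInstance, not_normal, fun h => not_normal h.toNormalSpace,
    oneEmbedded_of_all all_functionallyFSigma⟩

end Pool.Agent.Results.MP_493890_gt.AllSubsetsOneEmbedded
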